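import Pool.Agent.U260.CV1

/-!
# Slope of the copolymer critical curve at the origin: `m_α > 1/(1+α)`, and more

For every `α > 0` there is `ε > 0`, depending only on `α`, such that for every renewal law with tail
exponent `α` and every disorder law with mean `0`, variance `1` and all exponential moments,
`h_c(λ) ≥ (1/(1+α) + ε) λ` for all sufficiently small `λ > 0`.  In particular there is no `α > 0`
with `m_α = 1/(1+α)`.  For `α ∈ (0,1)` the critical curve is moreover larger, by `ε λ`, than the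
lower bound `h*(λ)` which is given by the averaged single excursion criterion.
-/

set_option autoImplicit false
open MeasureTheory ProbabilityTheory Filter Topology
open scoped ENNReal NNReal

namespace Pool.Agent.Results.MP_65efe8_pr.StrictSlope

/-- law of one (gap, sign) pair: gap with law `κ`, sign uniform on `{false, true}` -/
noncomputable def stepLaw (κ : PMF ℕ) : Measure (ℕ × Bool) :=
  κ.toMeasure.prod (PMF.uniformOfFintype Bool).toMeasure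

instance instStepLaw (κ : PMF ℕ) : IsProbabilityMeasure (stepLaw κ) := by
  unfold stepLaw; infer_instance

/-- law of the i.i.d. sequence of (gap, sign) pairs -/
noncomputable def pathMeasure (κ : PMF ℕ) : Measure (ℕ → ℕ × Bool) :=
  Measure.infinitePi (fun _ : ℕ => stepLaw κ)

/-- renewal points `τ_0 = 0`, `τ_j` = sum of the first `j` gaps -/
def tau (x : ℕ → ℕ × Bool) (j : ℕ) : ℕ := ∑ i ∈ Finset.range j, (x i).1

/-- `Δ_n` = sign of the excursion `(τ_j, τ_{j+1}]` containing `n` (as a real number 0 or 1) -/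
noncomputable def Delta (x : ℕ → ℕ × Bool) (n : ℕ) : ℝ :=
  ∑ j ∈ Finset.range n, if tau x j < n ∧ n ≤ tau x (j + 1) ∧ (x j).2 = true then 1 else 0

/-- the copolymer partition function `Z_{N,ω}` -/
noncomputable def Z (κ : PMF ℕ) (lam h : ℝ) (N : ℕ) (ω : ℕ → ℝ) : ℝ :=
  ∫ x, Real.exp (-2 * lam * ∑ n ∈ Finset.Icc 1 N, Delta x n * (ω n + h)) ∂(pathMeasure κ)

/-- i.i.d. disorder with law `ν` (the coordinates `1, 2, ...` are used) -/
noncomputable def disorder (ν : Measure ℝ) [IsProbabilityMeasure ν] : Measure (ℕ → ℝ) :=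
  Measure.infinitePi (fun _ : ℕ => ν)

/-- `N⁻¹ E log Z_N` -/
noncomputable def feN (κ : PMF ℕ) (ν : Measure ℝ) [IsProbabilityMeasure ν] (lam h : ℝ) (N : ℕ) : ℝ :=
  (N : ℝ)⁻¹ * ∫ ω, Real.log (Z κ lam h N ω) ∂(disorder ν)

/-- the free energy `f(λ,h)` -/
noncomputable def freeEnergy (κ : PMF ℕ) (ν : Measure ℝ) [IsProbabilityMeasure ν] (lam h : ℝ) : ℝ :=
  limUnder atTop (feN κ ν lam h)

/-- the critical curve `h_c(λ) = sup {h ≥ 0 : f(λ,h) > 0}` -/
noncomputable def hcrit (κ : PMF ℕ) (ν : Measure ℝ) [IsProbabilityMeasure ν] (lam : ℝ) : ℝ :=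
  sSup {h : ℝ | 0 ≤ h ∧ 0 < freeEnergy κ ν lam h}

/-- `A_n = E[ ((1 + exp(-2λ Σ_{i ≤ n} (ω_i + h)))/2)^{1/(1+α)} ]`, the fractional moment of the
weight of an excursion of length `n` -/
noncomputable def excMoment (α : ℝ) (ν : Measure ℝ) [IsProbabilityMeasure ν] (lam h : ℝ)
    (n : ℕ) : ℝ :=
  ∫ ω, ((1 + Real.exp (∑ i ∈ Finset.Ioc 0 n, -2 * lam * (ω i + h))) / 2) ^ (1 / (1 + α))
    ∂(disorder ν)

/-- the averaged single excursion criterion `Σ_n K(n) A_n > 1` -/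
def AveragedCriterion (α : ℝ) (κ : PMF ℕ) (ν : Measure ℝ) [IsProbabilityMeasure ν]
    (lam h : ℝ) : Prop :=
  ∃ N : ℕ, 1 < ∑ n ∈ Finset.Ioc 0 N, (κ n).toReal * excMoment α ν lam h n

/-- the lower bound `h*(λ)` of the critical curve given by the averaged criterion -/
noncomputable def hstar (α : ℝ) (κ : PMF ℕ) (ν : Measure ℝ) [IsProbabilityMeasure ν]
    (lam : ℝ) : ℝ :=
  sSup {h : ℝ | 0 ≤ h ∧ AveragedCriterion α κ ν lam h}

/-- the law `κ` of the gaps lives on the positive integers and `κ(n) ∼ cK n^{-(1+α)}` -/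
def IsGapLaw (α : ℝ) (κ : PMF ℕ) : Prop :=
  κ 0 = 0 ∧ ∃ cK : ℝ, 0 < cK ∧
    Tendsto (fun n : ℕ => (n : ℝ) ^ (1 + α) * (κ n).toReal) atTop (𝓝 cK)

/-- mean `0`, variance `1`, all exponential moments -/
def IsChargeLaw (ν : Measure ℝ) : Prop :=
  ∫ x, x ∂ν = 0 ∧ ∫ x, x ^ 2 ∂ν = 1 ∧ ∀ t : ℝ, Integrable (fun x => Real.exp (t * x)) ν

/-- **The critical slope is larger than `1/(1+α)` for every `α > 0`.** -/
theorem result :
    (∀ α : ℝ, 0 < α → ∃ ε : ℝ, 0 < ε ∧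
      ∀ κ : PMF ℕ, IsGapLaw α κ → ∀ (ν : Measure ℝ) [IsProbabilityMeasure ν], IsChargeLaw ν →
        (∀ lam, 0 < lam → (∀ h, 0 ≤ h → Tendsto (feN κ ν lam h) atTop (𝓝 (freeEnergy κ ν lam h))) ∧
          BddAbove {h : ℝ | 0 ≤ h ∧ 0 < freeEnergy κ ν lam h} ∧
          (∀ h, 0 ≤ h → (0 < freeEnergy κ ν lam h ↔ h < hcrit κ ν lam)) ∧
          (∀ h, 0 ≤ h → AveragedCriterion α κ ν lam h → h < hcrit κ ν lam)) ∧
        (∀ᶠ lam in 𝓝[>] 0, (1 / (1 + α) + ε) * lam ≤ hcrit κ ν lam ∧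
          (α < 1 → hstar α κ ν lam + ε * lam ≤ hcrit κ ν lam)) ∧
        ((1 / (1 + α) + ε : ℝ) : EReal) ≤
          liminf (fun lam => ((hcrit κ ν lam / lam : ℝ) : EReal)) (𝓝[>] 0)) ∧
    ¬ ∃ α : ℝ, 0 < α ∧ ∃ κ : PMF ℕ, IsGapLaw α κ ∧
        ∃ (ν : Measure ℝ) (_ : IsProbabilityMeasure ν), IsChargeLaw ν ∧
        Tendsto (fun lam => hcrit κ ν lam / lam) (𝓝[>] 0) (𝓝 (1 / (1 + α))) := by
  have key : ∀ α : ℝ, 0 < α → ∃ ε : ℝ, 0 < ε ∧
      ∀ κ : PMF ℕ, IsGapLaw α κ → ∀ (ν : Measure ℝ) [IsProbabilityMeasure ν],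
      IsChargeLaw ν → (∀ lam, 0 < lam →
        (∀ h, 0 ≤ h → Tendsto (feN κ ν lam h) atTop (𝓝 (freeEnergy κ ν lam h))) ∧
          BddAbove {h : ℝ | 0 ≤ h ∧ 0 < freeEnergy κ ν lam h} ∧
          (∀ h, 0 ≤ h → (0 < freeEnergy κ ν lam h ↔ h < hcrit κ ν lam)) ∧
          (∀ h, 0 ≤ h → AveragedCriterion α κ ν lam h → h < hcrit κ ν lam)) ∧
        (∀ᶠ lam in 𝓝[>] 0, (1 / (1 + α) + ε) * lam ≤ hcrit κ ν lam ∧
          (α < 1 → hstar α κ ν lam + ε * lam ≤ hcrit κ ν lam)) := by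
    intro α hα
    obtain ⟨m, hm, hslope⟩ := Pool.Agent.U260.CS.slope_all hα
    obtain ⟨ε1, hε1, hstrict⟩ : ∃ ε1 : ℝ, 0 < ε1 ∧ (α < 1 →
        ∀ (κ : PMF ℕ), κ 0 = 0 → ∀ cK : ℝ, 0 < cK →
        Tendsto (fun n : ℕ => (n : ℝ) ^ (1 + α) * (κ n).toReal) atTop (𝓝 cK) →
        ∀ (ν : Measure ℝ) [IsProbabilityMeasure ν], ∫ x, x ∂ν = 0 → ∫ x, x ^ 2 ∂ν = 1 →
        (∀ t : ℝ, Integrable (fun x => Real.exp (t * x)) ν) →
        ∃ lam0 : ℝ, 0 < lam0 ∧ ∀ D : Cop764.Data, D.κ = κ → D.α = α → D.ν = ν →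
          D.lam < lam0 → ∀ h : ℝ, 0 ≤ h →
          (∃ N : ℕ, 1 < ∑ k ∈ Finset.Ioc 0 N,
            D.K k * Pool.Agent.U260.CS.AA D h (1 / (1 + α)) k) →
          0 < D.f (h + ε1 * D.lam)) := by
      rcases lt_or_ge α 1 with h1 | h1
      · obtain ⟨ε1, hε1, hs⟩ := Pool.Agent.U260.CS.strict hα h1
        exact ⟨ε1, hε1, fun _ => hs⟩
      · exact ⟨1, one_pos, fun h2 => absurd h2 (not_lt.2 h1)⟩
    refine ⟨min (m - 1 / (1 + α)) ε1, lt_min (by linarith) hε1, ?_⟩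
    intro κ hκ ν hν hch
    obtain ⟨h0, cK, hcK, htail⟩ := hκ
    obtain ⟨mean, var, expm⟩ := hch
    have hfirst : ∀ lam, 0 < lam →
        (∀ h, 0 ≤ h → Tendsto (feN κ ν lam h) atTop (𝓝 (freeEnergy κ ν lam h))) ∧
          BddAbove {h : ℝ | 0 ≤ h ∧ 0 < freeEnergy κ ν lam h} ∧
          (∀ h, 0 ≤ h → (0 < freeEnergy κ ν lam h ↔ h < hcrit κ ν lam)) ∧
          (∀ h, 0 ≤ h → AveragedCriterion α κ ν lam h → h < hcrit κ ν lam) := by
      intro lam hlam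
      obtain ⟨f1, f2, f3, f4, f5, f6⟩ := Pool.Agent.U260.CS.crit_facts
        ⟨κ, h0, α, cK, hα, hcK, htail, ν, hν, mean, var, expm, lam, hlam⟩
      have f7 : ∀ h, 0 ≤ h → (0 < freeEnergy κ ν lam h ↔ h < hcrit κ ν lam) := by
        intro h hh
        have := f5 h hh
        rw [f4] at this
        exact this
      refine ⟨f1, f2.mono fun h hh => hh.2, f7, ?_⟩
      intro h hh hav
      refine (f7 h hh).1 ?_
      exact Pool.Agent.U260.CS.ave_pos
        ⟨κ, h0, α, cK, hα, hcK, htail, ν, hν, mean, var, expm, lam, hlam⟩ hh hav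
    refine ⟨hfirst, ?_⟩
    obtain ⟨lam0, hlam0, hs⟩ := hslope κ h0 cK hcK htail ν mean var expm
    obtain ⟨lam1, hlam1, hs1⟩ : ∃ lam1 : ℝ, 0 < lam1 ∧ (α < 1 → ∀ D : Cop764.Data, D.κ = κ →
        D.α = α → D.ν = ν → D.lam < lam1 → ∀ h : ℝ, 0 ≤ h →
        (∃ N : ℕ, 1 < ∑ k ∈ Finset.Ioc 0 N,
            D.K k * Pool.Agent.U260.CS.AA D h (1 / (1 + α)) k) →
          0 < D.f (h + ε1 * D.lam)) := by
      by_cases h1 : α < 1
      · obtain ⟨lam1, hlam1, hs1⟩ := hstrict h1 κ h0 cK hcK htail ν mean var expm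
        exact ⟨lam1, hlam1, fun _ => hs1⟩
      · exact ⟨1, one_pos, fun h2 => absurd h2 h1⟩
    have hev : ∀ᶠ lam in 𝓝[>] (0 : ℝ), lam < min lam0 lam1 :=
      nhdsWithin_le_nhds (gt_mem_nhds (lt_min hlam0 hlam1))
    filter_upwards [hev, self_mem_nhdsWithin] with lam hl hp
    have hp' : 0 < lam := hp
    have hl0 : lam < lam0 := hl.trans_le (min_le_left _ _)
    have hl1 : lam < lam1 := hl.trans_le (min_le_right _ _)
    have hpos := hs ⟨κ, h0, α, cK, hα, hcK, htail, ν, hν, mean, var, expm, lam, hp'⟩ rfl rfl rfl hl0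
    have hm0 : 0 < m := lt_trans (by positivity) hm
    have hc1 := ((hfirst lam hp').2.2.1 (m * lam) (by positivity)).1 hpos
    have he1 : min (m - 1 / (1 + α)) ε1 * lam ≤ (m - 1 / (1 + α)) * lam :=
      mul_le_mul_of_nonneg_right (min_le_left _ _) hp'.le
    have he2 : min (m - 1 / (1 + α)) ε1 * lam ≤ ε1 * lam :=
      mul_le_mul_of_nonneg_right (min_le_right _ _) hp'.le
    have hge : 0 ≤ 1 / (1 + α) * lam := by positivity
    refine ⟨by linarith, fun h1 => ?_⟩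
    refine Pool.Agent.U260.CS.sSup_add_le (by linarith) fun h hh => ?_
    have h2 := hs1 h1 ⟨κ, h0, α, cK, hα, hcK, htail, ν, hν, mean, var, expm, lam, hp'⟩
      rfl rfl rfl hl1 h hh.1 hh.2
    have h3 : 0 ≤ h + ε1 * lam := by
      have := hh.1
      positivity
    have h4 := ((hfirst lam hp').2.2.1 (h + ε1 * lam) h3).1 h2
    linarith
  refine ⟨fun α hα => ?_, ?_⟩
  · obtain ⟨ε, hε, hk⟩ := key α hα
    refine ⟨ε, hε, fun κ hκ ν hν hch => ?_⟩
    obtain ⟨k1, k2⟩ := hk κ hκ ν hch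
    refine ⟨k1, k2, ?_⟩
    refine le_liminf_of_le (by isBoundedDefault) ?_
    filter_upwards [k2, self_mem_nhdsWithin] with lam hl hp
    have hp' : 0 < lam := hp
    rw [EReal.coe_le_coe_iff, le_div_iff₀ hp']
    exact hl.1
  · rintro ⟨α, hα, κ, hκ, ν, hν, hch, hlim⟩
    obtain ⟨ε, hε, hk⟩ := key α hα
    have k2 := (hk κ hκ ν hch).2
    have h1 : 1 / (1 + α) + ε ≤ 1 / (1 + α) := by
      refine ge_of_tendsto hlim ?_
      filter_upwards [k2, self_mem_nhdsWithin] with lam hl hp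
      have hp' : 0 < lam := hp
      rw [le_div_iff₀ hp']
      exact hl.1
    linarith

end Pool.Agent.Results.MP_65efe8_pr.StrictSlope
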